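import Pool.Agent.N641.VB.Stm2

/-!
Project VB, leaf EXS: transfer of the structure to a Boolean algebra with the same types.
-/

set_option autoImplicit false
set_option linter.unusedSectionVars false
set_option linter.unusedVariables false

namespace Pool.Agent.N887.VB

open Pool.Agent.N641.VB FirstOrder FirstOrder.Language

namespace ExsAux

variable {M : Type} [AddCommMonoid M]

theorem tame_congr {n : ℕ} {Q Q' : UPr M n}
    (h : ∀ (A : Type) [BooleanAlgebra A] (mu : A → M) (p : Fin n → A), Q A mu p ↔ Q' A mu p)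
    (hQ : Tame Q) : Tame Q' := by
  obtain ⟨k, hk⟩ := hQ
  exact ⟨k, fun A A' _ _ mu mu' p p' hm hm' hc hq =>
    (h A' mu' p').1 (hk A A' mu mu' p p' hm hm' hc ((h A mu p).2 hq))⟩

section

variable {n : ℕ}

theorem tame_imp (TM1 : S_TM1) {Q Q' : UPr M n} (h : Tame Q) (h' : Tame Q') :
    Tame (M := M) (n := n) (fun A _ mu p => Q A mu p → Q' A mu p) :=
  (TM1 M).2.2.2.1 n Q Q' h h'

theorem tame_not (TM1 : S_TM1) {Q : UPr M n} (h : Tame Q) :
    Tame (M := M) (n := n) (fun A _ mu p => ¬ Q A mu p) :=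
  tame_imp TM1 h ((TM1 M).2.2.1 n)

theorem tame_and (TM1 : S_TM1) {Q Q' : UPr M n} (h : Tame Q) (h' : Tame Q') :
    Tame (M := M) (n := n) (fun A _ mu p => Q A mu p ∧ Q' A mu p) := by
  refine tame_congr (fun A _ mu p => ?_) (tame_not TM1 (tame_imp TM1 h (tame_not TM1 h')))
  tauto

theorem tame_or (TM1 : S_TM1) {Q Q' : UPr M n} (h : Tame Q) (h' : Tame Q') :
    Tame (M := M) (n := n) (fun A _ mu p => Q A mu p ∨ Q' A mu p) := by
  refine tame_congr (fun A _ mu p => ?_) (tame_imp TM1 (tame_not TM1 h) h')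
  tauto

theorem tame_iff (TM1 : S_TM1) {Q Q' : UPr M n} (h : Tame Q) (h' : Tame Q') :
    Tame (M := M) (n := n) (fun A _ mu p => (Q A mu p ↔ Q' A mu p)) := by
  refine tame_congr (fun A _ mu p => ?_) (tame_and TM1 (tame_imp TM1 h h') (tame_imp TM1 h' h))
  tauto

theorem tame_all (TM1 : S_TM1) {Q : UPr M (n + 1)} (h : Tame Q) :
    Tame (M := M) (n := n) (fun A _ mu p => ∀ b : A, Q A mu (Fin.snoc p b)) :=
  (TM1 M).2.2.2.2.1 n Q h

theorem tame_ex (TM1 : S_TM1) {Q : UPr M (n + 1)} (h : Tame Q) :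
    Tame (M := M) (n := n) (fun A _ mu p => ∃ b : A, Q A mu (Fin.snoc p b)) := by
  refine tame_congr (fun A _ mu p => ?_) (tame_not TM1 (tame_all TM1 (tame_not TM1 h)))
  push Not
  rfl

theorem tame_le (TM1 : S_TM1) (i j : Fin n) :
    Tame (M := M) (n := n) (fun _ _ _ p => p i ≤ p j) := (TM1 M).1 n i j

theorem tame_val (TM1 : S_TM1) (i : Fin n) (v : M) :
    Tame (M := M) (n := n) (fun _ _ mu p => mu (p i) = v) := (TM1 M).2.1 n i v

theorem tame_eq (TM1 : S_TM1) (i j : Fin n) :
    Tame (M := M) (n := n) (fun _ _ _ p => p i = p j) := by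
  refine tame_congr (fun A _ mu p => ?_) (tame_and TM1 (tame_le TM1 i j) (tame_le TM1 j i))
  exact ⟨fun h => le_antisymm h.1 h.2, fun h => ⟨h.le, h.ge⟩⟩

theorem tame_comp (TM1 : S_TM1) {m : ℕ} (g : Fin n → Fin m) {Q : UPr M n} (h : Tame Q) :
    Tame (M := M) (n := m) (fun A _ mu p => Q A mu (p ∘ g)) := (TM1 M).2.2.2.2.2 n m g Q h

end

theorem append_snoc' {A : Type} {n k : ℕ} (q : Fin n → A) (v : Fin k → A) (b : A) :
    (Fin.append q (Fin.snoc v b : Fin (k + 1) → A) : Fin (n + (k + 1)) → A) =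
      (Fin.snoc (Fin.append q v) b : Fin (n + k + 1) → A) := by
  funext i
  refine Fin.addCases (fun i => ?_) (fun i => ?_) i
  · rw [Fin.append_left]
    have h1 : (Fin.castAdd (k + 1) i : Fin (n + (k + 1))) = (Fin.castAdd k i).castSucc := rfl
    rw [h1, Fin.snoc_castSucc, Fin.append_left]
  · rw [Fin.append_right]
    refine Fin.lastCases ?_ (fun i => ?_) i
    · rw [Fin.snoc_last]
      have h1 : (Fin.natAdd n (Fin.last k) : Fin (n + (k + 1))) = Fin.last (n + k) := rfl
      rw [h1, Fin.snoc_last]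
    · rw [Fin.snoc_castSucc]
      have h1 : (Fin.natAdd n i.castSucc : Fin (n + (k + 1))) = (Fin.natAdd n i).castSucc := rfl
      rw [h1, Fin.snoc_castSucc, Fin.append_right]

theorem tame_alls (TM1 : S_TM1) {n : ℕ} : ∀ (k : ℕ) (Q : UPr M (n + k)), Tame Q →
    Tame (M := M) (n := n) (fun A _ mu q => ∀ v : Fin k → A, Q A mu (Fin.append q v))
  | 0, Q, h => by
    refine tame_congr (fun A _ mu p => ?_) (tame_comp TM1 (id : Fin n → Fin n) h)
    constructor
    · intro h1 v
      have e : Fin.append p v = p := by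
        funext i
        exact Fin.append_left p v i
      rw [e]
      exact h1
    · intro h1
      have h2 := h1 Fin.elim0
      have e : Fin.append p Fin.elim0 = p := by
        funext i
        exact Fin.append_left p Fin.elim0 i
      rw [e] at h2
      exact h2
  | k + 1, Q, h => by
    refine tame_congr (fun A _ mu p => ?_) (tame_alls TM1 k _ (tame_all TM1 (n := n + k) h))
    constructor
    · intro h1 v
      have h2 := h1 (Fin.init v) (v (Fin.last k))
      rw [← append_snoc', Fin.snoc_init_self] at h2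
      exact h2
    · intro h1 v b
      rw [← append_snoc']
      exact h1 _

/-- replacing a coordinate by the last one -/
def rp {N : ℕ} (lst : Fin N) : Fin N → Fin (N + 1) :=
  fun i => if i = lst then Fin.last N else i.castSucc

theorem snoc_rp {A : Type} {N : ℕ} (lst : Fin N) (x : Fin N → A) (b : A) :
    (Fin.snoc x b : Fin (N + 1) → A) ∘ rp lst = Function.update x lst b := by
  funext i
  by_cases h : i = lst
  · subst h
    simp [rp]
  · simp [rp, h]

theorem tame_U (TM1 : S_TM1) {N : ℕ} (lst : Fin N) {R : UPr M N} (hR : Tame R) :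
    Tame (M := M) (n := N) (fun A _ mu x => R A mu x ∧
      ∀ b, R A mu (Function.update x lst b) → b = x lst) := by
  refine tame_and TM1 hR ?_
  refine tame_congr (fun A _ mu p => ?_) (tame_all TM1 (n := N)
    (tame_imp TM1 (tame_comp TM1 (rp lst) hR) (tame_eq TM1 (Fin.last N) lst.castSucc)))
  simp only [snoc_rp, Fin.snoc_last, Fin.snoc_castSucc]

theorem tame_upd_ex (TM1 : S_TM1) {N : ℕ} (lst : Fin N) {R : UPr M N} (hR : Tame R) :
    Tame (M := M) (n := N) (fun A _ mu x => ∃ b, R A mu (Function.update x lst b)) := by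
  refine tame_congr (fun A _ mu p => ?_) (tame_ex TM1 (n := N) (tame_comp TM1 (rp lst) hR))
  simp only [snoc_rp]

theorem tame_bot (TM1 : S_TM1) {N : ℕ} (lst : Fin N) :
    Tame (M := M) (n := N) (fun A _ mu x => ∀ c, x lst ≤ c) := by
  refine tame_congr (fun A _ mu p => ?_) (tame_all TM1 (n := N)
    (tame_le TM1 lst.castSucc (Fin.last N)))
  simp only [Fin.snoc_last, Fin.snoc_castSucc]

theorem tame_graph (TM1 : S_TM1) {N : ℕ} (lst : Fin N) {R : UPr M N} (hR : Tame R) :
    Tame (M := M) (n := N) (fun A _ mu x =>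
      (R A mu (Function.update x lst (x lst)) ∧
        ∀ b, R A mu (Function.update x lst b) → b = x lst) ∨
      (¬ (∃ w, R A mu (Function.update x lst w) ∧
        ∀ b, R A mu (Function.update x lst b) → b = w) ∧ ∀ c, x lst ≤ c)) := by
  refine tame_congr (fun A _ mu p => ?_) (tame_or TM1 (tame_U TM1 lst hR)
    (tame_and TM1 (tame_not TM1 (tame_upd_ex TM1 lst (tame_U TM1 lst hR))) (tame_bot TM1 lst)))
  simp only [Function.update_eq_self, Function.update_idem, Function.update_self]

open Classical in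
/-- the unique solution, or bottom -/
noncomputable def the {A : Type} [BooleanAlgebra A] (P : A → Prop) : A :=
  if h : ∃! b : A, P b then h.choose else ⊥

theorem the_eq_iff {A : Type} [BooleanAlgebra A] (P : A → Prop) (w : A) :
    the P = w ↔ (P w ∧ ∀ b, P b → b = w) ∨
      (¬ (∃ w, P w ∧ ∀ b, P b → b = w) ∧ ∀ c, w ≤ c) := by
  unfold the
  by_cases h : ∃! b : A, P b
  · rw [dif_pos h]
    have h1 := h.choose_spec
    constructor
    · intro h2
      left
      rw [← h2]
      exact h1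
    · rintro (h2 | h2)
      · exact h2.2 _ h1.1
      · exact absurd h h2.1
  · rw [dif_neg h]
    constructor
    · intro h2
      right
      refine ⟨h, fun c => ?_⟩
      rw [← h2]
      exact bot_le
    · rintro (h2 | h2)
      · exact absurd ⟨w, h2⟩ h
      · exact le_antisymm bot_le (h2.2 _)

/-- the transferred structure -/
@[reducible] noncomputable def JJ {L : FirstOrder.Language.{0, 0}} {n : ℕ}
    (ρR : ∀ l, L.Relations l → (LM M).Formula (Fin n ⊕ Fin l))
    (ρF : ∀ l, L.Functions l → (LM M).Formula (Fin n ⊕ Fin (l + 1)))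
    (A : Type) [BooleanAlgebra A] (mu : A → M) (q : Fin n → A) : L.Structure A where
  RelMap := fun {l} R v =>
    @Formula.Realize (LM M) A (str (· ≤ ·) mu) _ (ρR l R) (Sum.elim q v)
  funMap := fun {l} F v => the (fun b : A =>
    @Formula.Realize (LM M) A (str (· ≤ ·) mu) _ (ρF l F)
      (Sum.elim q (Fin.snoc v b : Fin (l + 1) → A)))

theorem tame_LM (TM1 : S_TM1) (TM2 : S_TM2) {n k : ℕ} (φ : (LM M).Formula (Fin n ⊕ Fin k)) :
    Tame (M := M) (n := n + k) (fun A _ mu x =>
      @Formula.Realize (LM M) A (str (· ≤ ·) mu) _ φ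
        (Sum.elim (fun i => x (Fin.castAdd k i)) (fun j => x (Fin.natAdd n j)))) := by
  refine TM2 M (LM M) n (fun A _ mu _ => str (· ≤ ·) mu) ?_ ?_ k φ
  · intro l R
    cases R with
    | le => exact tame_le TM1 _ _
    | val v => exact tame_val TM1 _ _
  · intro l F
    exact Empty.elim F

theorem tame_JJ (TM1 : S_TM1) (TM2 : S_TM2) {L : FirstOrder.Language.{0, 0}} {n : ℕ}
    (ρR : ∀ l, L.Relations l → (LM M).Formula (Fin n ⊕ Fin l))
    (ρF : ∀ l, L.Functions l → (LM M).Formula (Fin n ⊕ Fin (l + 1)))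
    {k : ℕ} (φ : L.Formula (Fin n ⊕ Fin k)) :
    Tame (M := M) (n := n + k) (fun A _ mu x =>
      @Formula.Realize L A (JJ ρR ρF A mu (fun i => x (Fin.castAdd k i))) _ φ
        (Sum.elim (fun i => x (Fin.castAdd k i)) (fun j => x (Fin.natAdd n j)))) := by
  refine TM2 M L n (fun A _ mu q => JJ ρR ρF A mu q) ?_ ?_ k φ
  · intro l R
    exact tame_LM TM1 TM2 (ρR l R)
  · intro l F
    refine tame_congr (fun A _ mu x => ?_) (tame_graph TM1 (Fin.natAdd n (Fin.last l))
      (tame_LM TM1 TM2 (ρF l F)))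
    have hupd : ∀ b : A, @Formula.Realize (LM M) A (str (· ≤ ·) mu) _ (ρF l F)
        (Sum.elim
          (fun i => Function.update x (Fin.natAdd n (Fin.last l)) b (Fin.castAdd (l + 1) i))
          (fun j => Function.update x (Fin.natAdd n (Fin.last l)) b (Fin.natAdd n j))) ↔
        @Formula.Realize (LM M) A (str (· ≤ ·) mu) _ (ρF l F)
        (Sum.elim (fun i => x (Fin.castAdd (l + 1) i))
          (Fin.snoc (fun j => x (Fin.natAdd n j.castSucc)) b : Fin (l + 1) → A)) := by
      intro b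
      have e1 : (fun i : Fin n => Function.update x (Fin.natAdd n (Fin.last l)) b
          (Fin.castAdd (l + 1) i)) = fun i => x (Fin.castAdd (l + 1) i) := by
        funext i
        rw [Function.update_of_ne]
        intro h
        have h1 := congrArg Fin.val h
        simp only [Fin.val_castAdd, Fin.val_natAdd] at h1
        have h2 := i.2
        omega
      have e2 : (fun j : Fin (l + 1) => Function.update x (Fin.natAdd n (Fin.last l)) b
          (Fin.natAdd n j)) =
          (Fin.snoc (fun j => x (Fin.natAdd n j.castSucc)) b : Fin (l + 1) → A) := by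
        funext j
        refine Fin.lastCases ?_ (fun j => ?_) j
        · rw [Function.update_self, Fin.snoc_last]
        · rw [Fin.snoc_castSucc, Function.update_of_ne]
          intro h
          have h1 := congrArg Fin.val h
          simp only [Fin.val_natAdd, Fin.val_last, Fin.val_castSucc] at h1
          have h2 := j.2
          omega
      rw [e1, e2]
    simp only [hupd]
    exact (the_eq_iff (A := A) (fun b : A =>
      @Formula.Realize (LM M) A (str (· ≤ ·) mu) _ (ρF l F)
        (Sum.elim (fun i => x (Fin.castAdd (l + 1) i))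
          (Fin.snoc (fun j => x (Fin.natAdd n j.castSucc)) b : Fin (l + 1) → A)))
      (x (Fin.natAdd n (Fin.last l)))).symm

theorem JJ_eq {L : FirstOrder.Language.{0, 0}} {n : ℕ}
    (ρR : ∀ l, L.Relations l → (LM M).Formula (Fin n ⊕ Fin l))
    (ρF : ∀ l, L.Functions l → (LM M).Formula (Fin n ⊕ Fin (l + 1)))
    (S : L.Structure ℕ) (p : Fin n → ℕ) (bo : BooleanAlgebra ℕ) (mu : ℕ → M)
    (hR : ∀ l R, @Def (LM M) (str bo.le mu) n l p (ρR l R)
      (fun v => @Structure.RelMap L ℕ S l R v))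
    (hF : ∀ l F, @Def (LM M) (str bo.le mu) n (l + 1) p (ρF l F)
      (fun v => @Structure.funMap L ℕ S l F (fun i => v i.castSucc) = v (Fin.last l))) :
    @JJ M L n ρR ρF ℕ bo mu p = S := by
  have h1 : ∀ (l : ℕ) (R : L.Relations l) (v : Fin l → ℕ),
      @Structure.RelMap L ℕ (@JJ M L n ρR ρF ℕ bo mu p) l R v =
        @Structure.RelMap L ℕ S l R v := fun l R v => propext (hR l R v)
  have h2 : ∀ (l : ℕ) (F : L.Functions l) (v : Fin l → ℕ),
      @Structure.funMap L ℕ (@JJ M L n ρR ρF ℕ bo mu p) l F v =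
        @Structure.funMap L ℕ S l F v := by
    intro l F v
    have h3 : ∀ b, @Formula.Realize (LM M) ℕ (str bo.le mu) _ (ρF l F)
        (Sum.elim p (Fin.snoc v b : Fin (l + 1) → ℕ)) ↔ @Structure.funMap L ℕ S l F v = b := by
      intro b
      have h4 := hF l F (Fin.snoc v b)
      simp only [Fin.snoc_castSucc, Fin.snoc_last] at h4
      exact h4
    refine (@the_eq_iff ℕ bo _ _).2 (Or.inl ⟨(h3 _).2 rfl, fun b hb => ?_⟩)
    exact ((h3 b).1 hb).symm
  refine Structure.ext ?_ ?_
  · funext l F v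
    exact h2 l F v
  · funext l R v
    exact h1 l R v

theorem real_sentence {L : FirstOrder.Language.{0, 0}} {α : Type} (S : L.Structure ℕ)
    (θ : L.Sentence) (g : Empty → α) (v : α → ℕ) :
    @Formula.Realize L ℕ S _ ((θ : L.Formula Empty).relabel g) v ↔
      @Sentence.Realize L ℕ S θ := by
  rw [Formula.realize_relabel]
  exact Iff.of_eq (congrArg (fun w => Formula.Realize (θ : L.Formula Empty) w)
    (Subsingleton.elim _ _))

theorem transfer {n : ℕ} {Q : UPr M n} (hQ : Tame Q) (bo bo' : BooleanAlgebra ℕ)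
    (mu mu' : ℕ → M) (p p' : Fin n → ℕ) (hm : @AM M _ ℕ bo mu) (hm' : @AM M _ ℕ bo' mu')
    (hc : ∀ ε, @ft M ℕ bo mu (@cell ℕ bo n p ε) = @ft M ℕ bo' mu' (@cell ℕ bo' n p' ε)) :
    @Q ℕ bo mu p → @Q ℕ bo' mu' p' := by
  obtain ⟨k, hk⟩ := hQ
  exact @hk ℕ ℕ bo bo' mu mu' p p' hm hm' (fun ε => congrFun (hc ε) k)

end ExsAux

open ExsAux in
/-- EXS: transfer of the structure to a Boolean algebra with the same types -/
theorem EXS (TM1 : S_TM1) (TM2 : S_TM2) : S_EXS := by
  intro L M _ _ n φ ψ S p p' bo bo' mu mu' hDec hEnc hm hm' hc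
  choose ρR hR using hEnc.rel
  choose ρF hF using hEnc.fun_
  have hS : @JJ M L n ρR ρF ℕ bo mu p = S := JJ_eq ρR ρF S p bo mu hR hF
  subst hS
  have key : ∀ (k : ℕ) (χ : L.Formula (Fin n ⊕ Fin k)) (Q : UPr M (n + k)), Tame Q →
      (∀ v : Fin k → ℕ, @Formula.Realize L ℕ (@JJ M L n ρR ρF ℕ bo mu p) _ χ (Sum.elim p v) ↔
        @Q ℕ bo mu (Fin.append p v)) →
      ∀ v : Fin k → ℕ, @Formula.Realize L ℕ (@JJ M L n ρR ρF ℕ bo' mu' p') _ χ
        (Sum.elim p' v) ↔ @Q ℕ bo' mu' (Fin.append p' v) := by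
    intro k χ Q hQ h
    have h1 := tame_alls TM1 k _ (tame_iff TM1 (tame_JJ TM1 TM2 ρR ρF χ) hQ)
    have h2 := transfer h1 bo bo' mu mu' p p' hm hm' hc
    have e1 : ∀ (q : Fin n → ℕ) (v : Fin k → ℕ),
        (fun i => Fin.append q v (Fin.castAdd k i)) = q := fun q v =>
      funext fun i => Fin.append_left q v i
    have e2 : ∀ (q : Fin n → ℕ) (v : Fin k → ℕ),
        (fun j => Fin.append q v (Fin.natAdd n j)) = v := fun q v =>
      funext fun i => Fin.append_right q v i
    intro v
    have h3 := h2 (fun v => by rw [e1 p v, e2 p v]; exact h v) v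
    rw [e1 p' v, e2 p' v] at h3
    exact h3
  refine ⟨@JJ M L n ρR ρF ℕ bo' mu' p', ⟨?_, ?_⟩, ?_⟩
  · have h1 := key 2 φ _ (tame_le TM1 (Fin.natAdd n 0) (Fin.natAdd n 1)) ?_
    · intro v
      rw [h1 v, Fin.append_right, Fin.append_right]
    · intro v
      rw [Fin.append_right, Fin.append_right]
      exact hDec.le v
  · intro c
    have h1 := key 1 (ψ c) _ (tame_val TM1 (Fin.natAdd n 0) c) ?_
    · intro v
      rw [h1 v, Fin.append_right]
    · intro v
      rw [Fin.append_right]
      exact hDec.val c v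
  · intro T hT
    rw [@Theory.model_iff] at hT ⊢
    intro θ hθ
    have h1 := key 0 ((θ : L.Formula Empty).relabel (Empty.elim : Empty → Fin n ⊕ Fin 0))
      (fun _ _ _ _ => ¬ False) (tame_not TM1 ((TM1 M).2.2.1 (n + 0))) ?_ Fin.elim0
    · exact (real_sentence _ θ _ _).1 (h1.2 id)
    · intro v
      exact ⟨fun _ => id, fun _ => (real_sentence _ θ _ _).2 (hT θ hθ)⟩

end Pool.Agent.N887.VB
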