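import Pool.Agent.N641.VB.Stm

/-!
Project VB, leaf CAT: uniqueness of countable algebras with finitely many divisors (back and forth).
-/

set_option autoImplicit false
set_option linter.unusedSectionVars false
set_option linter.unusedVariables false

namespace Pool.Agent.N887.VB

open Pool.Agent.N641.VB

namespace CatAux

variable {M : Type} [AddCommMonoid M]

section prod

variable {A B : Type} [BooleanAlgebra A] [BooleanAlgebra B] {mu : A → M} {nu : B → M}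

theorem am_mprod (hm : AM mu) (hn : AM nu) : AM (mprod mu nu) := by
  constructor
  · change mu ⊥ + nu ⊥ = 0
    rw [hm.bot, hn.bot, add_zero]
  · rintro ⟨a1, b1⟩ ⟨a2, b2⟩ h
    have h1 : Disjoint a1 a2 ∧ Disjoint b1 b2 := Prod.disjoint_iff.1 h
    change mu (a1 ⊔ a2) + nu (b1 ⊔ b2) = mu a1 + nu b1 + (mu a2 + nu b2)
    rw [hm.sup _ _ h1.1, hn.sup _ _ h1.2, add_add_add_comm]

theorem tp_left (hn : AM nu) :
    ∀ (k : ℕ) (a : A), tp (mprod mu nu) k (a, (⊥ : B)) = tp mu k a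
  | 0, a => by
    refine propext ⟨fun h => congrArg Prod.fst h, fun h => ?_⟩
    rw [h]
    rfl
  | k + 1, a => by
    refine Prod.ext ?_ ?_
    · change mu a + nu ⊥ = mu a
      rw [hn.bot, add_zero]
    · ext q
      constructor
      · rintro ⟨⟨b1, b2⟩, hb, rfl⟩
        obtain ⟨hb1, hb2⟩ := Prod.mk_le_mk.1 hb
        have h2 : b2 = ⊥ := le_bot_iff.1 hb2
        subst h2
        refine ⟨b1, hb1, Prod.ext (tp_left hn k b1) ?_⟩
        change tp (mprod mu nu) k (a \ b1, (⊥ : B) \ ⊥) = tp mu k (a \ b1)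
        rw [sdiff_self]
        exact tp_left hn k _
      · rintro ⟨b, hb, rfl⟩
        refine ⟨(b, ⊥), Prod.mk_le_mk.2 ⟨hb, le_rfl⟩, Prod.ext (tp_left hn k b).symm ?_⟩
        change tp mu k (a \ b) = tp (mprod mu nu) k (a \ b, (⊥ : B) \ ⊥)
        rw [sdiff_self]
        exact (tp_left hn k _).symm

theorem tp_right (hm : AM mu) :
    ∀ (k : ℕ) (b : B), tp (mprod mu nu) k ((⊥ : A), b) = tp nu k b
  | 0, b => by
    refine propext ⟨fun h => congrArg Prod.snd h, fun h => ?_⟩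
    rw [h]
    rfl
  | k + 1, b => by
    refine Prod.ext ?_ ?_
    · change mu ⊥ + nu b = nu b
      rw [hm.bot, zero_add]
    · ext q
      constructor
      · rintro ⟨⟨b1, b2⟩, hb, rfl⟩
        obtain ⟨hb1, hb2⟩ := Prod.mk_le_mk.1 hb
        have h2 : b1 = ⊥ := le_bot_iff.1 hb1
        subst h2
        refine ⟨b2, hb2, Prod.ext (tp_right hm k b2) ?_⟩
        change tp (mprod mu nu) k ((⊥ : A) \ ⊥, b \ b2) = tp nu k (b \ b2)
        rw [sdiff_self]
        exact tp_right hm k _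
      · rintro ⟨c, hc, rfl⟩
        refine ⟨(⊥, c), Prod.mk_le_mk.2 ⟨le_rfl, hc⟩, Prod.ext (tp_right hm k c).symm ?_⟩
        change tp nu k (b \ c) = tp (mprod mu nu) k ((⊥ : A) \ ⊥, b \ c)
        rw [sdiff_self]
        exact (tp_right hm k _).symm

end prod

theorem rl_add {u v : FT M} (hu : Rl u) (hv : Rl v) : Rl (u + v) := by
  obtain ⟨A, _, mu, a, hm, rfl⟩ := hu
  obtain ⟨B, _, nu, b, hn, rfl⟩ := hv
  refine ⟨A × B, inferInstance, mprod mu nu, (a, b), am_mprod hm hn, ?_⟩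
  have h1 : ((a, b) : A × B) = (a, ⊥) ⊔ (⊥, b) := by
    rw [Prod.mk_sup_mk, sup_bot_eq, bot_sup_eq]
  have h2 : Disjoint ((a, ⊥) : A × B) (⊥, b) :=
    Prod.disjoint_iff.2 ⟨disjoint_bot_right, disjoint_bot_left⟩
  rw [h1, ft_sup (am_mprod hm hn) _ _ h2]
  congr 1
  · exact funext fun k => tp_left hn k a
  · exact funext fun k => tp_right hm k b

theorem dv_mono {A : Type} [BooleanAlgebra A] {mu : A → M} (hm : AM mu) {a b : A} (h : b ≤ a) :
    Dv (ft mu b) ⊆ Dv (ft mu a) := by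
  rintro w ⟨hw, v, hv, hwv⟩
  refine ⟨hw, v + ft mu (a \ b), rl_add hv ⟨A, _, mu, a \ b, hm, rfl⟩, ?_⟩
  rw [← add_assoc, hwv, ← ft_sup hm _ _ disjoint_sdiff_self_right, sup_sdiff_cancel_right h]

section main

variable {A A' : Type} [BooleanAlgebra A] [BooleanAlgebra A']

/-- good lists of pairs -/
def Gd (mu : A → M) (mu' : A' → M) : List (A × A') → A → A' → Prop
  | [], a, a' => ft mu a = ft mu' a' ∧ (Dv (ft mu a)).Finite
  | x :: L, a, a' => Gd mu mu' L (a ⊓ x.1) (a' ⊓ x.2) ∧ Gd mu mu' L (a \ x.1) (a' \ x.2)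

variable {mu : A → M} {mu' : A' → M}

theorem gd_swap : ∀ (L : List (A × A')) (a : A) (a' : A'), Gd mu mu' L a a' →
    Gd mu' mu (L.map Prod.swap) a' a
  | [], a, a', h => ⟨h.1.symm, h.1 ▸ h.2⟩
  | x :: L, a, a', h => ⟨gd_swap L _ _ h.1, gd_swap L _ _ h.2⟩

theorem gd_ft (hm : AM mu) (hm' : AM mu') : ∀ (L : List (A × A')) (a : A) (a' : A'),
    Gd mu mu' L a a' → ft mu a = ft mu' a'
  | [], a, a', h => h.1
  | x :: L, a, a', h => by
    have h1 := gd_ft hm hm' L _ _ h.1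
    have h2 := gd_ft hm hm' L _ _ h.2
    have e1 : a = (a ⊓ x.1) ⊔ (a \ x.1) := sup_inf_sdiff a x.1 |>.symm
    have e2 : a' = (a' ⊓ x.2) ⊔ (a' \ x.2) := sup_inf_sdiff a' x.2 |>.symm
    rw [e1, e2, ft_sup hm _ _ (disjoint_inf_sdiff), ft_sup hm' _ _ (disjoint_inf_sdiff), h1, h2]

theorem gd_bot (hm : AM mu) (hm' : AM mu') : ∀ (L : List (A × A')) (a : A) (a' : A'),
    Gd mu mu' L a a' → Gd mu mu' L ⊥ ⊥
  | [], a, a', h => by
    refine ⟨?_, h.2.subset (dv_mono hm bot_le)⟩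
    rw [ft_bot hm, ft_bot hm']
  | x :: L, a, a', h => by
    have h1 := gd_bot hm hm' L _ _ h.1
    refine ⟨?_, ?_⟩
    · rw [bot_inf_eq, bot_inf_eq]
      exact h1
    · rw [bot_sdiff, bot_sdiff]
      exact h1

omit [BooleanAlgebra A'] in
theorem isd (a b x : A) : (a ⊓ x) \ b = (a \ b) ⊓ x := by
  rw [sdiff_eq, sdiff_eq, inf_right_comm]

omit [BooleanAlgebra A'] in
theorem sdc (a b x : A) : (a \ x) \ b = (a \ b) \ x := by
  rw [sdiff_eq, sdiff_eq, sdiff_eq, sdiff_eq, inf_right_comm]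

omit [BooleanAlgebra A'] in
theorem sds (a b x : A) : a \ (b ⊔ x) = (a \ b) \ x := by
  rw [sdiff_sdiff_left]

theorem gd_mem (hm : AM mu) (hm' : AM mu') {x : A} {x' : A'} :
    ∀ (L : List (A × A')) (a : A) (a' : A'), (x, x') ∈ L →
    Gd mu mu' L a a' → Gd mu mu' L (a ⊓ x) (a' ⊓ x') ∧ Gd mu mu' L (a \ x) (a' \ x')
  | [], a, a', hx, h => absurd hx (List.not_mem_nil)
  | y :: L, a, a', hx, h => by
    rcases List.mem_cons.1 hx with rfl | hx
    · obtain ⟨h1, h2⟩ := h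
      have h3 := gd_bot hm hm' L _ _ h1
      refine ⟨⟨?_, ?_⟩, ⟨?_, ?_⟩⟩
      · change Gd mu mu' L (a ⊓ x ⊓ x) (a' ⊓ x' ⊓ x')
        rw [inf_assoc, inf_idem, inf_assoc, inf_idem]
        exact h1
      · change Gd mu mu' L ((a ⊓ x) \ x) ((a' ⊓ x') \ x')
        rw [sdiff_eq_bot_iff.2 inf_le_right, sdiff_eq_bot_iff.2 inf_le_right]
        exact h3
      · change Gd mu mu' L ((a \ x) ⊓ x) ((a' \ x') ⊓ x')
        rw [disjoint_iff.1 disjoint_sdiff_self_left, disjoint_iff.1 disjoint_sdiff_self_left]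
        exact h3
      · change Gd mu mu' L ((a \ x) \ x) ((a' \ x') \ x')
        rw [sdiff_idem, sdiff_idem]
        exact h2
    · obtain ⟨h1, h2⟩ := h
      obtain ⟨h11, h12⟩ := gd_mem hm hm' L _ _ hx h1
      obtain ⟨h21, h22⟩ := gd_mem hm hm' L _ _ hx h2
      refine ⟨⟨?_, ?_⟩, ⟨?_, ?_⟩⟩
      · rw [inf_right_comm a x, inf_right_comm a' x']
        exact h11
      · rw [isd, isd]
        exact h21
      · rw [← isd, ← isd]
        exact h12
      · rw [sdc, sdc a']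
        exact h22

theorem gd_forth (FIN : S_FIN) [Finite M] (hm : AM mu) (hm' : AM mu') (b : A) :
    ∀ (L : List (A × A')) (a : A) (a' : A'), Gd mu mu' L a a' →
    ∃ b' ≤ a', Gd mu mu' L (a ⊓ b) b' ∧ Gd mu mu' L (a \ b) (a' \ b')
  | [], a, a', h => by
    obtain ⟨h1, h2⟩ := h
    have h3 : ft mu (a ⊓ b) + ft mu (a \ b) = ft mu' a' := by
      rw [← ft_sup hm _ _ disjoint_inf_sdiff, sup_inf_sdiff, h1]
    obtain ⟨b', hb', e1, e2⟩ := FIN M A' mu' a' (ft mu (a ⊓ b)) (ft mu (a \ b)) hm' (h1 ▸ h2)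
      ⟨A, _, mu, _, hm, rfl⟩ ⟨A, _, mu, _, hm, rfl⟩ h3
    exact ⟨b', hb', ⟨e1.symm, h2.subset (dv_mono hm inf_le_left)⟩,
      ⟨e2.symm, h2.subset (dv_mono hm sdiff_le)⟩⟩
  | x :: L, a, a', h => by
    obtain ⟨b1, hb1, h11, h12⟩ := gd_forth FIN hm hm' b L _ _ h.1
    obtain ⟨b2, hb2, h21, h22⟩ := gd_forth FIN hm hm' b L _ _ h.2
    have hb1x : b1 ≤ x.2 := hb1.trans inf_le_right
    have hb2x : Disjoint b2 x.2 := disjoint_sdiff_self_left.mono_left hb2
    refine ⟨b1 ⊔ b2, sup_le (hb1.trans inf_le_left) (hb2.trans sdiff_le), ⟨?_, ?_⟩, ⟨?_, ?_⟩⟩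
    · have e1 : (b1 ⊔ b2) ⊓ x.2 = b1 := by
        rw [inf_sup_right, inf_eq_left.2 hb1x, hb2x.eq_bot, sup_bot_eq]
      rw [e1, inf_right_comm]
      exact h11
    · have e1 : (b1 ⊔ b2) \ x.2 = b2 := by
        rw [sup_sdiff, sdiff_eq_bot_iff.2 hb1x, hb2x.sdiff_eq_left, bot_sup_eq]
      rw [e1, isd]
      exact h21
    · have e1 : (a' \ (b1 ⊔ b2)) ⊓ x.2 = (a' ⊓ x.2) \ b1 := by
        rw [← isd, sds]
        refine Disjoint.sdiff_eq_left ?_
        exact (hb2x.symm.mono_left inf_le_right).mono_left sdiff_le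
      rw [e1, ← isd]
      exact h12
    · have e1 : (a' \ (b1 ⊔ b2)) \ x.2 = (a' \ x.2) \ b2 := by
        rw [sdc, sds, (disjoint_sdiff_self_left.mono_right hb1x :
          Disjoint (a' \ x.2) b1).sdiff_eq_left]
      rw [e1, sdc]
      exact h22

/-- one step of the back-and-forth construction -/
theorem gd_step (FIN : S_FIN) [Finite M] (hm : AM mu) (hm' : AM mu') (b : A) (c' : A')
    (L : List (A × A')) (h : Gd mu mu' L ⊤ ⊤) :
    ∃ L' : List (A × A'), Gd mu mu' L' ⊤ ⊤ ∧ L ⊆ L' ∧ (∃ b', (b, b') ∈ L') ∧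
      ∃ c, (c, c') ∈ L' := by
  obtain ⟨b', -, h1, h2⟩ := gd_forth FIN hm hm' b L ⊤ ⊤ h
  have h3 : Gd mu mu' ((b, b') :: L) ⊤ ⊤ := ⟨by rw [top_inf_eq b']; exact h1, h2⟩
  obtain ⟨c, -, h4, h5⟩ := gd_forth FIN hm' hm c' _ ⊤ ⊤ (gd_swap _ _ _ h3)
  have h4' := gd_swap _ _ _ h4
  have h5' := gd_swap _ _ _ h5
  rw [List.map_map, Prod.swap_swap_eq, List.map_id] at h4' h5'
  refine ⟨(c, c') :: (b, b') :: L, ⟨by rw [top_inf_eq c]; exact h4', h5'⟩, ?_,
    ⟨b', by simp⟩, ⟨c, by simp⟩⟩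
  intro x hx
  exact List.mem_cons_of_mem _ (List.mem_cons_of_mem _ hx)

/-- good lists respect the order -/
theorem gd_le (hm : AM mu) (hm' : AM mu') (L : List (A × A')) (h : Gd mu mu' L ⊤ ⊤)
    {x y : A} {x' y' : A'} (hx : (x, x') ∈ L) (hy : (y, y') ∈ L) : x ≤ y ↔ x' ≤ y' := by
  have h1 := (gd_mem hm hm' L ⊤ ⊤ hx h).1
  have h2 := (gd_mem hm hm' L _ _ hy h1).2
  have h3 := gd_ft hm hm' L _ _ h2
  have h4 : (((⊤ ⊓ x) \ y = ⊥ : Prop)) = (((⊤ ⊓ x') \ y' = ⊥ : Prop)) := congrFun h3 0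
  rw [top_inf_eq, top_inf_eq, sdiff_eq_bot_iff, sdiff_eq_bot_iff] at h4
  exact Iff.of_eq h4

/-- good lists respect the measure -/
theorem gd_mu (hm : AM mu) (hm' : AM mu') (L : List (A × A')) (h : Gd mu mu' L ⊤ ⊤)
    {x : A} {x' : A'} (hx : (x, x') ∈ L) : mu x = mu' x' := by
  have h1 := (gd_mem hm hm' L ⊤ ⊤ hx h).1
  have h3 := gd_ft hm hm' L _ _ h1
  have h4 : mu (⊤ ⊓ x) = mu' (⊤ ⊓ x') := congrArg Prod.fst (congrFun h3 1)
  rwa [top_inf_eq, top_inf_eq] at h4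

theorem cell_succ {n : ℕ} (p : Fin (n + 1) → A) (ε : Fin (n + 1) → Bool) :
    cell p ε = (if ε 0 then p 0 else (p 0)ᶜ) ⊓ cell (fun i => p i.succ) (fun i => ε i.succ) := by
  classical
  unfold cell
  rw [Fin.univ_succ, Finset.inf_cons, Finset.inf_map]
  rfl

/-- the initial list -/
theorem gd_init : ∀ (n : ℕ) (p : Fin n → A) (p' : Fin n → A') (a : A) (a' : A'),
    (∀ ε, ft mu (a ⊓ cell p ε) = ft mu' (a' ⊓ cell p' ε)) →
    (∀ ε, (Dv (ft mu (a ⊓ cell p ε))).Finite) →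
    Gd mu mu' (List.ofFn fun j => (p j, p' j)) a a'
  | 0, p, p', a, a', h1, h2 => by
    have e1 : cell p Fin.elim0 = ⊤ := by
      unfold cell
      rw [Finset.univ_eq_empty, Finset.inf_empty]
    have e2 : cell p' Fin.elim0 = ⊤ := by
      unfold cell
      rw [Finset.univ_eq_empty, Finset.inf_empty]
    have h3 := h1 Fin.elim0
    have h4 := h2 Fin.elim0
    rw [e1, inf_top_eq] at h3 h4
    rw [e2, inf_top_eq] at h3
    rw [List.ofFn_zero]
    exact ⟨h3, h4⟩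
  | n + 1, p, p', a, a', h1, h2 => by
    rw [List.ofFn_succ]
    refine ⟨?_, ?_⟩
    · refine gd_init n _ _ _ _ (fun ε => ?_) (fun ε => ?_)
      · have h3 := h1 (Fin.cons true ε)
        rw [cell_succ, cell_succ] at h3
        simp only [Fin.cons_zero, Fin.cons_succ, if_true, ← inf_assoc] at h3
        exact h3
      · have h3 := h2 (Fin.cons true ε)
        rw [cell_succ] at h3
        simp only [Fin.cons_zero, Fin.cons_succ, if_true, ← inf_assoc] at h3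
        exact h3
    · refine gd_init n _ _ _ _ (fun ε => ?_) (fun ε => ?_)
      · have h3 := h1 (Fin.cons false ε)
        rw [cell_succ, cell_succ] at h3
        simp only [Fin.cons_zero, Fin.cons_succ, ← inf_assoc, Bool.false_eq_true, if_false] at h3
        rw [sdiff_eq, sdiff_eq]
        exact h3
      · have h3 := h2 (Fin.cons false ε)
        rw [cell_succ] at h3
        simp only [Fin.cons_zero, Fin.cons_succ, ← inf_assoc, Bool.false_eq_true, if_false] at h3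
        rw [sdiff_eq]
        exact h3

end main

end CatAux

open CatAux in
/-- CAT: finitely many divisors give uniqueness -/
theorem CAT (FIN : S_FIN) : S_CAT := by
  intro M _ _ A A' _ _ _ _ mu mu' n p p' hm hm' h1 h2
  have h0 : Gd mu mu' (List.ofFn fun j => (p j, p' j)) ⊤ ⊤ := by
    refine gd_init n p p' ⊤ ⊤ (fun ε => ?_) (fun ε => ?_)
    · rw [top_inf_eq, top_inf_eq]
      exact h1 ε
    · rw [top_inf_eq]
      exact h2 ε
  obtain ⟨f, hf⟩ := exists_surjective_nat A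
  obtain ⟨f', hf'⟩ := exists_surjective_nat A'
  choose S hS1 hS2 hS3 hS4 using fun (b : A) (c' : A') (L : List (A × A'))
    (h : Gd mu mu' L ⊤ ⊤) => gd_step FIN hm hm' b c' L h
  let F : ℕ → {L : List (A × A') // Gd mu mu' L ⊤ ⊤} := fun k => Nat.rec ⟨_, h0⟩
    (fun k L => ⟨S (f k) (f' k) L.1 L.2, hS1 (f k) (f' k) L.1 L.2⟩) k
  have hF0 : (F 0).1 = List.ofFn fun j => (p j, p' j) := rfl
  have hFs : ∀ k, (F (k + 1)).1 = S (f k) (f' k) (F k).1 (F k).2 := fun k => rfl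
  have hmono : ∀ k l, k ≤ l → (F k).1 ⊆ (F l).1 := by
    intro k l hkl
    induction l, hkl using Nat.le_induction with
    | base => exact fun x hx => hx
    | succ l _ ih =>
      rw [hFs]
      exact fun x hx => hS2 (f l) (f' l) (F l).1 (F l).2 (ih hx)
  have hA : ∀ a : A, ∃ a', ∃ k, (a, a') ∈ (F k).1 := by
    intro a
    obtain ⟨k, rfl⟩ := hf a
    obtain ⟨a', ha'⟩ := hS3 (f k) (f' k) (F k).1 (F k).2
    exact ⟨a', k + 1, by rw [hFs]; exact ha'⟩
  have hA' : ∀ a' : A', ∃ a, ∃ k, (a, a') ∈ (F k).1 := by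
    intro a'
    obtain ⟨k, rfl⟩ := hf' a'
    obtain ⟨a, ha⟩ := hS4 (f k) (f' k) (F k).1 (F k).2
    exact ⟨a, k + 1, by rw [hFs]; exact ha⟩
  have hle : ∀ (x y : A) (x' y' : A') (k l : ℕ), (x, x') ∈ (F k).1 → (y, y') ∈ (F l).1 →
      (x ≤ y ↔ x' ≤ y') := by
    intro x y x' y' k l hx hy
    exact gd_le hm hm' (F (max k l)).1 (F (max k l)).2 (hmono _ _ (le_max_left _ _) hx)
      (hmono _ _ (le_max_right _ _) hy)
  choose g kg hg using hA
  choose g' kg' hg' using hA'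
  have hgg' : ∀ a', g (g' a') = a' := by
    intro a'
    apply le_antisymm
    · exact (hle _ _ _ _ _ _ (hg (g' a')) (hg' a')).1 le_rfl
    · exact (hle _ _ _ _ _ _ (hg' a') (hg (g' a'))).1 le_rfl
  have hg'g : ∀ a, g' (g a) = a := by
    intro a
    apply le_antisymm
    · exact (hle _ _ _ _ _ _ (hg' (g a)) (hg a)).2 le_rfl
    · exact (hle _ _ _ _ _ _ (hg a) (hg' (g a))).2 le_rfl
  let E : A ≃ A' := ⟨g, g', hg'g, hgg'⟩
  refine ⟨⟨E, fun {a b} => (hle _ _ _ _ _ _ (hg a) (hg b)).symm⟩, fun a => ?_, fun j => ?_⟩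
  · exact (gd_mu hm hm' (F (kg a)).1 (F (kg a)).2 (hg a)).symm
  · have hj : (p j, p' j) ∈ (F 0).1 := by
      rw [hF0, List.mem_ofFn]
      exact ⟨j, rfl⟩
    change g (p j) = p' j
    apply le_antisymm
    · exact (hle _ _ _ _ _ 0 (hg (p j)) hj).1 le_rfl
    · exact (hle _ _ _ _ 0 _ hj (hg (p j))).1 le_rfl

end Pool.Agent.N887.VB
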