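import Pool.Agent.N641.VB.Stm3

/-!
Project VB, leaf TM3: translation of the formulas of the interpreted structure.
-/

set_option autoImplicit false
set_option linter.unusedSectionVars false
set_option linter.unusedVariables false

namespace Pool.Agent.N887.VB

open Pool.Agent.N641.VB FirstOrder FirstOrder.Language

namespace TM3Aux

variable {L : FirstOrder.Language.{0, 0}} {M : Type}

/-- the universe of the interpreted structure -/
abbrev UU (σ : Sch L M) {A : Type} [BooleanAlgebra A] (mu : A → M) (q : Fin σ.n' → A) : Type :=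
  {x : Fin σ.r → A // @Formula.Realize (LM M) A (str (· ≤ ·) mu) _ σ.δ (Sum.elim q x)}

/-- uniform predicates on the interpreted structures -/
def UP (σ : Sch L M) (γ : Type) : Type 1 :=
  ∀ (A : Type) [BooleanAlgebra A] (mu : A → M) (q : Fin σ.n' → A) (u0 : UU σ mu q),
    (γ → UU σ mu q) → Prop

/-- the assignment given by a tuple of elements of the interpreted structure -/
abbrev asg {σ : Sch L M} {A : Type} [BooleanAlgebra A] {mu : A → M} (q : Fin σ.n' → A)
    {γ : Type} (v : γ → UU σ mu q) : Fin σ.n' ⊕ γ × Fin σ.r → A :=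
  Sum.elim q fun x => (v x.1).1 x.2

/-- definable uniform predicates -/
def Dfn (σ : Sch L M) {γ : Type} (D : UP σ γ) : Prop :=
  ∃ θ : (LM M).Formula (Fin σ.n' ⊕ γ × Fin σ.r), ∀ (A : Type) [BooleanAlgebra A] (mu : A → M)
    (q : Fin σ.n' → A) (u0 : UU σ mu q), Fnl σ mu q → ∀ v : γ → UU σ mu q,
    D A mu q u0 v ↔ @Formula.Realize (LM M) A (str (· ≤ ·) mu) _ θ (asg q v)

variable {σ : Sch L M} {γ γ' : Type}

theorem dfn_congr {D D' : UP σ γ} (h : ∀ (A : Type) [BooleanAlgebra A] (mu : A → M)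
    (q : Fin σ.n' → A) (u0 : UU σ mu q), Fnl σ mu q → ∀ v : γ → UU σ mu q,
    D A mu q u0 v ↔ D' A mu q u0 v) (hD : Dfn σ D) : Dfn σ D' := by
  obtain ⟨θ, hθ⟩ := hD
  exact ⟨θ, fun A _ mu q u0 hF v => (h A mu q u0 hF v).symm.trans (hθ A mu q u0 hF v)⟩

theorem dfn_false : Dfn σ (γ := γ) (fun _ _ _ _ _ _ => False) := by
  refine ⟨⊥, fun A _ mu q u0 hF v => ?_⟩
  rw [@Formula.realize_bot]

theorem dfn_imp {D D' : UP σ γ} (h : Dfn σ D) (h' : Dfn σ D') :
    Dfn σ (γ := γ) (fun A _ mu q u0 v => D A mu q u0 v → D' A mu q u0 v) := by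
  obtain ⟨θ, hθ⟩ := h
  obtain ⟨θ', hθ'⟩ := h'
  refine ⟨θ.imp θ', fun A _ mu q u0 hF v => ?_⟩
  rw [@Formula.realize_imp]
  exact imp_congr (hθ A mu q u0 hF v) (hθ' A mu q u0 hF v)

theorem dfn_not {D : UP σ γ} (h : Dfn σ D) :
    Dfn σ (γ := γ) (fun A _ mu q u0 v => ¬ D A mu q u0 v) :=
  dfn_imp h dfn_false

theorem dfn_and {D D' : UP σ γ} (h : Dfn σ D) (h' : Dfn σ D') :
    Dfn σ (γ := γ) (fun A _ mu q u0 v => D A mu q u0 v ∧ D' A mu q u0 v) := by
  refine dfn_congr (fun A _ mu q u0 hF v => ?_) (dfn_not (dfn_imp h (dfn_not h')))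
  tauto

theorem dfn_comp (g : γ → γ') {D : UP σ γ} (h : Dfn σ D) :
    Dfn σ (γ := γ') (fun A _ mu q u0 v => D A mu q u0 (v ∘ g)) := by
  obtain ⟨θ, hθ⟩ := h
  refine ⟨θ.relabel (Sum.map id (Prod.map g id)), fun A _ mu q u0 hF v => ?_⟩
  rw [@Formula.realize_relabel]
  refine (hθ A mu q u0 hF (v ∘ g)).trans (Iff.of_eq (congrArg _ ?_))
  funext x
  rcases x with x | x <;> rfl

theorem dfn_iall {ι : Type} [Finite ι] {D : ι → UP σ γ} (h : ∀ i, Dfn σ (D i)) :
    Dfn σ (γ := γ) (fun A _ mu q u0 v => ∀ i, D i A mu q u0 v) := by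
  choose θ hθ using h
  refine ⟨Formula.iInf θ, fun A _ mu q u0 hF v => ?_⟩
  rw [@Formula.realize_iInf]
  exact forall_congr' fun i => hθ i A mu q u0 hF v

theorem dfn_allU {ι : Type} [Finite ι] {D : UP σ (γ ⊕ ι)} (h : Dfn σ D) :
    Dfn σ (γ := γ) (fun A _ mu q u0 v => ∀ w : ι → UU σ mu q, D A mu q u0 (Sum.elim v w)) := by
  obtain ⟨θ, hθ⟩ := h
  let g1 : ι → Fin σ.n' ⊕ Fin σ.r → (Fin σ.n' ⊕ γ × Fin σ.r) ⊕ (ι × Fin σ.r) := fun a =>
    Sum.elim (fun b => Sum.inl (Sum.inl b)) (fun c => Sum.inr (a, c))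
  let g2 : Fin σ.n' ⊕ (γ ⊕ ι) × Fin σ.r → (Fin σ.n' ⊕ γ × Fin σ.r) ⊕ (ι × Fin σ.r) :=
    Sum.elim (fun b => Sum.inl (Sum.inl b)) (fun x => Sum.elim
      (fun a => Sum.inl (Sum.inr (a, x.2))) (fun i => Sum.inr (i, x.2)) x.1)
  refine ⟨Formula.iAlls (ι × Fin σ.r) ((Formula.iInf fun a : ι => σ.δ.relabel (g1 a)).imp
    (θ.relabel g2)), fun A _ mu q u0 hF v => ?_⟩
  have e1 : ∀ (i : ι × Fin σ.r → A) (a : ι), (Sum.elim (asg q v) i) ∘ g1 a =
      Sum.elim q (fun c => i (a, c)) := by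
    intro i a
    funext x
    rcases x with x | x <;> rfl
  have e2 : ∀ (w : ι → UU σ mu q), (Sum.elim (asg q v) (fun x => (w x.1).1 x.2)) ∘ g2 =
      asg q (Sum.elim v w) := by
    intro w
    funext x
    rcases x with x | ⟨x | x, c⟩ <;> rfl
  rw [@Formula.realize_iAlls]
  constructor
  · intro h1 i
    rw [@Formula.realize_imp, @Formula.realize_iInf]
    intro h2
    have h3 : ∀ a, @Formula.Realize (LM M) A (str (· ≤ ·) mu) _ σ.δ
        (Sum.elim q fun c => i (a, c)) := by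
      intro a
      have h4 := h2 a
      rw [@Formula.realize_relabel] at h4
      rw [← e1 i a]
      exact h4
    have h5 := h1 (fun a => ⟨fun c => i (a, c), h3 a⟩)
    rw [hθ A mu q u0 hF, ← e2] at h5
    rw [@Formula.realize_relabel]
    exact h5
  · intro h1 w
    have h2 := h1 (fun x => (w x.1).1 x.2)
    rw [@Formula.realize_imp, @Formula.realize_iInf] at h2
    rw [hθ A mu q u0 hF, ← e2]
    have h3 := h2 (fun a => by
      rw [@Formula.realize_relabel]
      have h4 := (w a).2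
      have h5 := e1 (fun x => (w x.1).1 x.2) a
      rw [← h5] at h4
      exact h4)
    rw [@Formula.realize_relabel] at h3
    exact h3

theorem dfn_exU {ι : Type} [Finite ι] {D : UP σ (γ ⊕ ι)} (h : Dfn σ D) :
    Dfn σ (γ := γ) (fun A _ mu q u0 v => ∃ w : ι → UU σ mu q, D A mu q u0 (Sum.elim v w)) := by
  refine dfn_congr (fun A _ mu q u0 hF v => ?_) (dfn_not (dfn_allU (dfn_not h)))
  push Not
  rfl

theorem dfn_eq (a b : γ) : Dfn σ (γ := γ) (fun A _ mu q u0 v => v a = v b) := by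
  refine ⟨Formula.iInf fun c : Fin σ.r =>
    Term.equal (Term.var (Sum.inr (a, c))) (Term.var (Sum.inr (b, c))),
    fun A _ mu q u0 hF v => ?_⟩
  rw [@Formula.realize_iInf]
  simp only [@Formula.realize_equal, Term.realize_var, Sum.elim_inr]
  rw [Subtype.ext_iff, funext_iff]

theorem dfn_rel {l : ℕ} (R : L.Relations l) (a : Fin l → γ) :
    Dfn σ (γ := γ) (fun A _ mu q u0 v => @Structure.RelMap L _ (JS σ mu q u0) l R (v ∘ a)) := by
  refine ⟨(σ.ρ l R).relabel (Sum.map id (Prod.map a id)), fun A _ mu q u0 hF v => ?_⟩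
  rw [@Formula.realize_relabel]
  change @Formula.Realize (LM M) A (str (· ≤ ·) mu) _ (σ.ρ l R)
    (Sum.elim q fun x => ((v ∘ a) x.1).1 x.2) ↔ _
  refine Iff.of_eq (congrArg _ ?_)
  funext x
  rcases x with x | x <;> rfl

theorem dfn_fun {l : ℕ} (F : L.Functions l) (a : Fin l → γ) (b : γ) :
    Dfn σ (γ := γ) (fun A _ mu q u0 v =>
      @Structure.funMap L _ (JS σ mu q u0) l F (v ∘ a) = v b) := by
  classical
  refine ⟨(σ.γ l F).relabel (Sum.map id (Prod.map (Fin.snoc a b : Fin (l + 1) → γ) id)),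
    fun A _ mu q u0 hF v => ?_⟩
  rw [@Formula.realize_relabel]
  have e1 : ∀ w : UU σ mu q, w = v b → (asg q v) ∘
      (Sum.map id (Prod.map (Fin.snoc a b : Fin (l + 1) → γ) id)) =
      Sum.elim q fun x => ((Fin.snoc (fun i => ((v ∘ a) i).1) w.1 : Fin (l + 1) → Fin σ.r → A)
          x.1) x.2 := by
    rintro w rfl
    funext x
    rcases x with x | ⟨i, c⟩
    · rfl
    · change (v ((Fin.snoc a b : Fin (l + 1) → γ) i)).1 c =
        (Fin.snoc (fun i => ((v ∘ a) i).1) (v b).1 : Fin (l + 1) → Fin σ.r → A) i c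
      refine Fin.lastCases ?_ (fun i => ?_) i
      · rw [Fin.snoc_last, Fin.snoc_last]
      · rw [Fin.snoc_castSucc, Fin.snoc_castSucc]
        rfl
  rw [e1 (v b) rfl]
  obtain ⟨w0, hw0, hw1⟩ := hF l F (v ∘ a)
  have hex : ∃ w : UU σ mu q, @Formula.Realize (LM M) A (str (· ≤ ·) mu) _ (σ.γ l F)
          (Sum.elim q fun x => ((Fin.snoc (fun i => ((v ∘ a) i).1) w.1 :
            Fin (l + 1) → Fin σ.r → A) x.1) x.2) := ⟨w0, hw0⟩
  have h1 : @Structure.funMap L _ (JS σ mu q u0) l F (v ∘ a) = hex.choose := by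
    change (if h : ∃ w : UU σ mu q, @Formula.Realize (LM M) A (str (· ≤ ·) mu) _ (σ.γ l F)
          (Sum.elim q fun x => ((Fin.snoc (fun i => ((v ∘ a) i).1) w.1 :
            Fin (l + 1) → Fin σ.r → A) x.1) x.2) then h.choose else u0) = hex.choose
    rw [dif_pos hex]
  change (@Structure.funMap L _ (JS σ mu q u0) l F (v ∘ a) = v b) ↔ _
  rw [h1]
  have h2 : hex.choose = w0 := hw1 _ hex.choose_spec
  rw [h2]
  constructor
  · intro h3
    rw [← h3]
    exact hw0
  · intro h3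
    exact (hw1 _ h3).symm

theorem dfn_term : ∀ (t : L.Term γ),
    Dfn σ (γ := γ ⊕ Unit) (fun A _ mu q u0 v =>
      @Term.realize L _ (JS σ mu q u0) _ (v ∘ Sum.inl) t = v (Sum.inr ()))
  | Term.var a => by
    refine dfn_congr (fun A _ mu q u0 hF v => ?_) (dfn_eq (Sum.inl a) (Sum.inr ()))
    rfl
  | Term.func (l := l) F ts => by
    have h1 : ∀ i, Dfn σ (γ := (γ ⊕ Unit) ⊕ Fin l) (fun A _ mu q u0 v =>
        @Term.realize L _ (JS σ mu q u0) _ (v ∘ Sum.inl ∘ Sum.inl) (ts i) = v (Sum.inr i)) := by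
      intro i
      exact dfn_comp (Sum.elim (fun a => Sum.inl (Sum.inl a)) (fun _ => Sum.inr i))
        (dfn_term (ts i))
    have h2 := dfn_exU (dfn_and (dfn_iall h1) (dfn_fun F (fun i : Fin l =>
      (Sum.inr i : (γ ⊕ Unit) ⊕ Fin l)) (Sum.inl (Sum.inr ()))))
    refine dfn_congr (fun A _ mu q u0 hF v => ?_) h2
    rw [@Term.realize_func]
    constructor
    · rintro ⟨w, h3, h4⟩
      have h5 : (fun i => @Term.realize L _ (JS σ mu q u0) _ (v ∘ Sum.inl) (ts i)) = w :=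
        funext h3
      rw [h5]
      exact h4
    · intro h3
      exact ⟨fun i => @Term.realize L _ (JS σ mu q u0) _ (v ∘ Sum.inl) (ts i), fun i => rfl, h3⟩

theorem dfn_bdf {α : Type} {j : ℕ} (χ : L.BoundedFormula α j) :
    Dfn σ (γ := α ⊕ Fin j) (fun A _ mu q u0 v =>
      @BoundedFormula.Realize L _ (JS σ mu q u0) _ _ χ (v ∘ Sum.inl) (v ∘ Sum.inr)) := by
  induction χ with
  | falsum => exact dfn_false
  | equal t1 t2 =>
    refine dfn_congr (fun A _ mu q u0 hF v => ?_)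
      (dfn_exU (ι := Unit) (dfn_and (dfn_term t1) (dfn_term t2)))
    have e : ∀ w : Unit → UU σ mu q, (Sum.elim v w) ∘ Sum.inl =
        Sum.elim (v ∘ Sum.inl) (v ∘ Sum.inr) := by
      intro w
      rw [Sum.elim_comp_inl, Sum.elim_comp_inl_inr]
    constructor
    · rintro ⟨w, h1, h2⟩
      rw [e w] at h1 h2
      exact h1.trans h2.symm
    · intro h1
      refine ⟨fun _ => @Term.realize L _ (JS σ mu q u0) _
        (Sum.elim (v ∘ Sum.inl) (v ∘ Sum.inr)) t1, ?_, ?_⟩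
      · rw [e]
        rfl
      · rw [e]
        exact h1.symm
  | rel R ts => 
    rename_i l
    have h1 : ∀ i, Dfn σ (γ := (α ⊕ Fin _) ⊕ Fin _) (fun A _ mu q u0 v =>
        @Term.realize L _ (JS σ mu q u0) _ (v ∘ Sum.inl) (ts i) = v (Sum.inr i)) := by
      intro i
      exact dfn_comp (Sum.elim (fun a => Sum.inl a) (fun _ => Sum.inr i))
        (dfn_term (ts i))
    have h2 := dfn_exU (dfn_and (dfn_iall h1) (dfn_rel R (fun i =>
      (Sum.inr i : (α ⊕ Fin _) ⊕ Fin _))))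
    refine dfn_congr (fun A _ mu q u0 hF v => ?_) h2
    have e : Sum.elim (v ∘ Sum.inl) (v ∘ Sum.inr) = v := Sum.elim_comp_inl_inr v
    constructor
    · rintro ⟨w, h3, h4⟩
      have h5 : (fun i => @Term.realize L _ (JS σ mu q u0) _
        (Sum.elim (v ∘ Sum.inl) (v ∘ Sum.inr)) (ts i)) = w := by
        rw [e]
        exact funext h3
      change @Structure.RelMap L _ (JS σ mu q u0) _ R (fun i => @Term.realize L _ (JS σ mu q u0) _
        (Sum.elim (v ∘ Sum.inl) (v ∘ Sum.inr)) (ts i))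
      rw [h5]
      exact h4
    · intro h3
      refine ⟨fun i => @Term.realize L _ (JS σ mu q u0) _ v (ts i), fun i => rfl, ?_⟩
      change @Structure.RelMap L _ (JS σ mu q u0) _ R (fun i => @Term.realize L _ (JS σ mu q u0) _
        (Sum.elim (v ∘ Sum.inl) (v ∘ Sum.inr)) (ts i)) at h3
      rw [e] at h3
      exact h3
  | imp f1 f2 ih1 ih2 => exact dfn_imp ih1 ih2
  | all f ih =>
    rename_i m
    have h1 := dfn_allU (ι := Unit) (dfn_comp (γ' := (α ⊕ Fin m) ⊕ Unit)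
      (Sum.elim (fun a => Sum.inl (Sum.inl a))
        (Fin.snoc (fun i => Sum.inl (Sum.inr i)) (Sum.inr ()) :
          Fin (m + 1) → (α ⊕ Fin m) ⊕ Unit)) ih)
    refine dfn_congr (fun A _ mu q u0 hF v => ?_) h1
    rw [@BoundedFormula.realize_all]
    have e : ∀ w : Unit → UU σ mu q, ((Sum.elim v w ∘ Sum.elim (fun a => Sum.inl (Sum.inl a))
        (Fin.snoc (fun i => Sum.inl (Sum.inr i)) (Sum.inr ()) :
          Fin (m + 1) → (α ⊕ Fin m) ⊕ Unit)) ∘ Sum.inr) =
        (Fin.snoc (v ∘ Sum.inr) (w ()) : Fin (m + 1) → UU σ mu q) := by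
      intro w
      funext i
      refine Fin.lastCases ?_ (fun i => ?_) i
      · simp
      · simp
    constructor
    · intro h2 x
      have h3 := h2 (fun _ => x)
      rw [e] at h3
      exact h3
    · intro h2 w
      rw [e]
      exact h2 (w ())

end TM3Aux

open TM3Aux in
/-- TM3: formulas of the interpreted structure are translated -/
theorem TM3 : S_TM3 := by
  intro L M σ k χ
  obtain ⟨θ, hθ⟩ := dfn_comp (σ := σ) (γ' := Fin k) (Sum.elim id Fin.elim0) (dfn_bdf χ)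
  refine ⟨θ, fun A _ mu q u0 hF v => ?_⟩
  refine Iff.trans ?_ (hθ A mu q u0 hF v)
  change @BoundedFormula.Realize L _ (JS σ mu q u0) _ _ χ v default ↔
    @BoundedFormula.Realize L _ (JS σ mu q u0) _ _ χ v ((v ∘ Sum.elim id Fin.elim0) ∘ Sum.inr)
  exact Iff.of_eq (congrArg (@BoundedFormula.Realize L _ (JS σ mu q u0) _ _ χ v)
    (Subsingleton.elim _ _))

end Pool.Agent.N887.VB
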